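import Pool.Agent.N39.RW.UniD

set_option autoImplicit false

/-!
# Several even numbers with a common prime summand, in all short windows around a positive proportion of the integers,
# uniformly in the even numbers
-/

namespace Pool.Agent.Results.MP_33f996_nt.CommonPrimeInShortWindows

open Filter

/-- the members `m, M₁ - m, ..., M_k - m` -/
def member {k : ℕ} (M : Fin k → ℕ) (l : Fin (k + 1)) (m : ℕ) : ℕ :=
  (Fin.cons m (fun l' => M l' - m) : Fin (k + 1) → ℕ) l

/-- the number of the residue classes modulo `p` which contain an element of `{0, M₁, ..., M_k}` -/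
def nu {k : ℕ} (M : Fin k → ℕ) (p : ℕ) : ℕ :=
  (insert 0 ((Finset.univ : Finset (Fin k)).image (fun l => M l % p))).card

/-- the sieve product -/
noncomputable def V {k : ℕ} (M : Fin k → ℕ) (X : ℕ) : ℝ :=
  ∏ p ∈ (Finset.Icc 1 X).filter Nat.Prime, (1 - (nu M p : ℝ) / p)

/-- the member `i` is prime, the member `j` is a product of at most two primes, all members are products of at most
`r` primes, all larger than `z`; and `√M_l < m < M_l / 2` for all `l` -/
def Good {k : ℕ} (M : Fin k → ℕ) (i j : Fin (k + 1)) (r : ℕ) (z : ℝ) (m : ℕ) : Prop :=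
  (member M i m).Prime ∧ (member M j m).primeFactorsList.length ≤ 2 ∧
    (∀ l, (member M l m).primeFactorsList.length ≤ r ∧
      ∀ q : ℕ, q.Prime → q ∣ member M l m → z < (q : ℝ)) ∧
    ∀ l, 2 * m < M l ∧ M l < m ^ 2

/-- all prime factors of all members are larger than `z` -/
def Sieved {k : ℕ} (M : Fin k → ℕ) (z : ℝ) (m : ℕ) : Prop :=
  ∀ l, ∀ q : ℕ, q.Prime → q ∣ member M l m → z < (q : ℝ)

/-- `n` is regular: in ALL windows `(u, v]` with `u ≤ n ≤ v` and `K / V ≤ v - u ≤ n / 2` there are at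
least `c₁ V (v - u)` good `m`, and at most `c₂ V (v - u)` sieved `m`, at the level `X ^ (1 / r)`. -/
def Regular {k : ℕ} (M : Fin k → ℕ) (i j : Fin (k + 1)) (r : ℕ) (c₁ c₂ K : ℝ) (X n : ℕ) : Prop :=
  ∀ u v : ℕ, u ≤ n → n ≤ v → K / V M X ≤ (v : ℝ) - u → (v : ℝ) - u ≤ (n : ℝ) / 2 →
    c₁ * ((v : ℝ) - u) * V M X ≤
      ({m : ℕ | u < m ∧ m ≤ v ∧ Good M i j r ((X : ℝ) ^ (1 / (r : ℝ))) m}.ncard : ℝ) ∧
    ({m : ℕ | u < m ∧ m ≤ v ∧ Sieved M ((X : ℝ) ^ (1 / (r : ℝ))) m}.ncard : ℝ) ≤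
      c₂ * ((v : ℝ) - u) * V M X

/-- the coefficients -/
def ca {k : ℕ} : Fin (k + 1) → ℤ := Fin.cons 1 (fun _ => -1)
def cb {k : ℕ} (M : Fin k → ℕ) : Fin (k + 1) → ℤ := Fin.cons 0 (fun l => (M l : ℤ))

theorem mem_form {k : ℕ} (M : Fin k → ℕ) (m : ℕ) (hm : ∀ l, m ≤ M l) (l : Fin (k + 1)) :
    ((member M l m : ℕ) : ℤ) = ca l * m + cb M l := by
  unfold member ca cb
  refine Fin.cases ?_ (fun l' => ?_) l
  · simp
  · simp only [Fin.cons_succ]
    rw [Nat.cast_sub (hm l')]
    ring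

theorem nu_eq {k : ℕ} (M : Fin k → ℕ) (p : ℕ) (hp : p.Prime) :
    Pool.Agent.H373R2.T7.nuB (Pool.Agent.N39.RW.QL ca (cb M)) p = nu M p := by
  classical
  have hp0 := hp.pos
  have h1 : (Finset.range p).filter (fun r => Pool.Agent.N39.RW.QL ca (cb M) p r) =
      insert 0 ((Finset.univ : Finset (Fin k)).image (fun l => M l % p)) := by
    ext r
    rw [Finset.mem_filter, Finset.mem_range, Finset.mem_insert, Finset.mem_image]
    unfold Pool.Agent.N39.RW.QL ca cb
    rw [Fin.exists_fin_succ]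
    simp only [Fin.cons_zero, Fin.cons_succ, one_mul, add_zero, Int.natCast_dvd_natCast, Finset.mem_univ,
      true_and]
    constructor
    · rintro ⟨hr, h | ⟨l, hl⟩⟩
      · exact Or.inl (Nat.eq_zero_of_dvd_of_lt h hr)
      · right
        refine ⟨l, ?_⟩
        have e : (-1 * (r : ℤ) + (M l : ℤ)) = (M l : ℤ) - r := by ring
        rw [e] at hl
        have h3 : (r : ℤ) ≡ (M l : ℤ) [ZMOD p] := (Int.modEq_iff_dvd).2 hl
        have h4 : r ≡ M l [MOD p] := (Int.natCast_modEq_iff).1 h3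
        have h5 : r % p = M l % p := h4
        rw [← h5, Nat.mod_eq_of_lt hr]
    · rintro (rfl | ⟨l, rfl⟩)
      · exact ⟨hp0, Or.inl (dvd_zero _)⟩
      · refine ⟨Nat.mod_lt _ hp0, Or.inr ⟨l, ?_⟩⟩
        have h4 : (M l % p) ≡ M l [MOD p] := Nat.mod_modEq _ _
        have h3 : ((M l % p : ℕ) : ℤ) ≡ (M l : ℤ) [ZMOD p] := (Int.natCast_modEq_iff).2 h4
        have h5 := (Int.modEq_iff_dvd).1 h3
        have e : (-1 * ((M l % p : ℕ) : ℤ) + (M l : ℤ)) = (M l : ℤ) - ((M l % p : ℕ) : ℤ) := by ring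
        rw [e]
        exact h5
  have h5 := congrArg Finset.card h1
  unfold Pool.Agent.H373R2.T7.nuB nu
  refine Eq.trans ?_ h5
  congr

theorem V_eq {k : ℕ} (M : Fin k → ℕ) (X : ℕ) :
    Pool.Agent.W123.RP.Vq (Pool.Agent.N39.RW.QL ca (cb M)) X = V M X := by
  unfold Pool.Agent.W123.RP.Vq V Pool.Agent.H373R2.T7.pz
  apply Finset.prod_congr rfl
  intro p hp
  rw [nu_eq M p (Finset.mem_filter.1 hp).2]

theorem result (k : ℕ) (hk : 1 ≤ k) : ∃ (r : ℕ) (c₁ c₂ K μ : ℝ), 1 ≤ r ∧ 0 < c₁ ∧ 0 < c₂ ∧ 0 < K ∧ 0 < μ ∧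
    ∀ K₀ : ℕ, ∀ᶠ X : ℕ in atTop, ∀ (M : Fin k → ℕ) (i j : Fin (k + 1)), i ≠ j → Function.Injective M →
      (∀ l, 8 * X < M l ∧ M l ≤ K₀ * X) → (∀ p : ℕ, p.Prime → nu M p < p) →
      μ * X ≤ ({n : ℕ | X < n ∧ n ≤ 2 * X ∧ Regular M i j r c₁ c₂ K X n}.ncard : ℝ) := by
  classical
  obtain ⟨r, hr, c₁, c₂, K, μ, hc₁, hc₂, hK, hμ, H⟩ := Pool.Agent.N39.RW.uniG (k + 1) 1 (by omega)
  refine ⟨r, c₁, c₂, K, μ, hr, hc₁, hc₂, by linarith, hμ, fun K₀ => ?_⟩
  filter_upwards [H K₀, eventually_ge_atTop (4 * K₀ + 16)] with X hX hX16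
  intro M i j hij hinj hM hadm
  have hMX : ∀ l, (M l : ℤ) ≠ 0 := fun l => by
    have := (hM l).1
    have h0 : M l ≠ 0 := by omega
    exact_mod_cast h0
  have hadm' : Pool.Agent.X32.Uni.AdmL ca (cb M) := by
    intro p hp
    by_contra hcon
    push Not at hcon
    have h1 : (Finset.range p).filter (fun r => Pool.Agent.N39.RW.QL ca (cb M) p r) = Finset.range p :=
      Finset.filter_true_of_mem (fun n _ => hcon n)
    have h2 : Pool.Agent.H373R2.T7.nuB (Pool.Agent.N39.RW.QL ca (cb M)) p = p := by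
      have h5 := congrArg Finset.card h1
      rw [Finset.card_range] at h5
      unfold Pool.Agent.H373R2.T7.nuB
      refine Eq.trans ?_ h5
      congr
    rw [nu_eq M p hp] at h2
    have := hadm p hp
    omega
  have hX' := hX ca (cb M) i j (by
      intro l
      unfold ca
      refine Fin.cases ?_ (fun l' => ?_) l <;> simp) (by
      intro l
      unfold ca
      refine Fin.cases ?_ (fun l' => ?_) l <;> simp) (by
      intro l
      unfold cb
      refine Fin.cases ?_ (fun l' => ?_) l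
      · simp
      · simpa using (hM l').2) hadm' (by
      revert hij
      refine Fin.cases ?_ (fun i' => ?_) i <;> refine Fin.cases ?_ (fun j' => ?_) j
      · intro h
        exact absurd rfl h
      · intro _ h
        simp [ca, cb] at h
      · intro _ h
        simp [ca, cb] at h
      · intro h h2
        apply h
        simp only [ca, cb, Fin.cons_succ, Prod.mk.injEq, true_and] at h2
        have h3 : M j' = M i' := by exact_mod_cast h2
        rw [hinj h3]) (by
      revert hij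
      refine Fin.cases ?_ (fun i' => ?_) i <;> refine Fin.cases ?_ (fun j' => ?_) j
      · intro h
        exact absurd rfl h
      · intro _ h
        simp only [ca, cb, Fin.cons_succ, Fin.cons_zero, Prod.mk.injEq, true_and, neg_zero] at h
        exact hMX j' h
      · intro _ h
        simp only [ca, cb, Fin.cons_succ, Fin.cons_zero, Prod.mk.injEq, neg_neg, true_and] at h
        exact hMX i' (by omega)
      · intro _ h2
        simp [ca, cb] at h2)
  rw [V_eq] at hX'
  refine hX'.trans ?_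
  rw [← Set.ncard_coe_finset]
  refine Nat.cast_le.2 (Set.ncard_le_ncard ?_ ((Set.finite_Iic (2 * X)).subset fun n hn => hn.2.1))
  intro n hn
  rw [Finset.mem_coe, Finset.mem_filter, Finset.mem_Ioc] at hn
  obtain ⟨⟨hn1, hn2⟩, hn3⟩ := hn
  refine ⟨hn1, hn2, fun u v hu hv h1 h2 => ?_⟩
  have hnr : (0 : ℝ) ≤ n := Nat.cast_nonneg n
  obtain ⟨h3, h4⟩ := hn3 u v hu hv h1 (by linarith)
  have hvn : 2 * v ≤ 2 * u + n := by
    have : 2 * (v : ℝ) ≤ 2 * u + n := by linarith
    exact_mod_cast this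
  have hv4 : 2 * v ≤ 8 * X := by omega
  have hcv : ∀ (P : ℕ → Prop), (((Finset.Ioc u v).filter (fun m => P m)).card) =
      Set.ncard {n : ℕ | u < n ∧ n ≤ v ∧ P n} := by
    intro P
    rw [← Set.ncard_coe_finset]
    congr 1
    ext m
    rw [Finset.mem_coe, Finset.mem_filter, Finset.mem_Ioc, and_assoc]
    rfl
  have hmv : ∀ m, m ≤ v → ∀ l, m ≤ M l := fun m hm l => by
    have := (hM l).1
    omega
  constructor
  · rw [hcv] at h3
    refine h3.trans (Nat.cast_le.2 (Set.ncard_le_ncard ?_ ((Set.finite_Iic v).subset fun n hn => hn.2.1)))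
    rintro m ⟨h5, h6, h7⟩
    refine ⟨h5, h6, ?_⟩
    obtain ⟨h8, h9, h10⟩ := h7
    simp only [← mem_form M m (hmv m h6), Int.natAbs_natCast, Int.natCast_dvd_natCast] at h8 h9 h10
    refine ⟨h8, h9, h10, fun l => ⟨?_, ?_⟩⟩
    · have := (hM l).1
      omega
    · have h11 := (hM l).2
      have h12 : X ≤ 2 * m := by omega
      have h13 : M l * 4 ≤ (4 * K₀) * X := by
        calc M l * 4 ≤ (K₀ * X) * 4 := Nat.mul_le_mul_right _ h11
          _ = _ := by ring
      have h14 : (4 * K₀) * X < X * X := Nat.mul_lt_mul_of_pos_right (by omega) (by omega)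
      have h15 : X * X ≤ (2 * m) * (2 * m) := Nat.mul_le_mul h12 h12
      nlinarith
  · rw [hcv] at h4
    have e : {n : ℕ | u < n ∧ n ≤ v ∧ Pool.Agent.N39.RW.GR ca (cb M) ((X : ℝ) ^ (1 / (r : ℝ))) n} =
        {m : ℕ | u < m ∧ m ≤ v ∧ Sieved M ((X : ℝ) ^ (1 / (r : ℝ))) m} := by
      ext m
      constructor
      · rintro ⟨h5, h6, h7⟩
        refine ⟨h5, h6, fun l q hq hd => h7 l q hq ?_⟩
        rw [← mem_form M m (hmv m h6)]
        exact Int.natCast_dvd_natCast.2 hd
      · rintro ⟨h5, h6, h7⟩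
        refine ⟨h5, h6, fun l q hq hd => h7 l q hq ?_⟩
        rw [← mem_form M m (hmv m h6)] at hd
        exact Int.natCast_dvd_natCast.1 hd
    rw [e] at h4
    exact h4

end Pool.Agent.Results.MP_33f996_nt.CommonPrimeInShortWindows
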