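import Pool.Agent.Results.MP_73b532_nt.IteratedTotients

/-!
# Goldbach partitions with a prime in `(√(2 n), n)`: all `n = α f(φ_k(m)) + h` with small `k`, `α`, `h`

The problem asks, for every `n`, for a prime `p` with `√(2 n) < p < n` such that `2 n - p` is prime.  The starting files
treat almost all `n` in residue classes, with a lower bound for the number of these primes; they say nothing about
sets of density zero as the set of the values of Euler's function or of its iterates `φ_k`.

We show: for almost all `m` ALL integers `n = α f(φ_k(m)) + h` with `k, α, |h| ≤ κ(m)`, `α ≥ 1`, `h ≠ 0`, have the number of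
such primes predicted by Hardy and Littlewood, in all windows, where `κ(m) → ∞`; `f` is any positive multiplicative
function of at most polynomial growth with `f p = p + c` for all large primes `p`, e.g. the identity, Euler's function
or the sum of divisors.

The proof uses the asymptotic formulas in the residue classes of every modulus of `R460/GH` (starting files) in the form
of `MP_73b532_nt.AsymptoticEveryModulus`, the iteration method of helper826 (`N826/IT`, `MP_484fb8_nt.IteratedTotients`)
and `N733/TG`.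
-/

set_option autoImplicit false

namespace Pool.Agent.Results.MP_33f996_nt.IteratedTotients

open Finset Filter Topology
open Pool.Agent.H560R3.GB (sing)

open Classical in
/-- The number of the primes `p` with `u < p ≤ v` such that `2 n - p` is a prime different from `p`. -/
noncomputable def count (n : ℕ) (u v : ℝ) : ℕ :=
  ((range (2 * n + 1)).filter
    (fun p : ℕ => p.Prime ∧ (2 * n - p).Prime ∧ p ≠ 2 * n - p ∧ u < p ∧ (p : ℝ) ≤ v)).card

/-- (1) There is a prime `p` with `√(2 n) < p < n` such that `2 n - p` is prime (the assertion of the problem for `n`),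
even with `p ≤ √(2 n) + 2 n / (log 2 n)^W`; (2) for every interval `(u, v]` with `√(2 n) ≤ u`, `v ≤ n` and
`v - u ≥ 2 n / (log 2 n)^W` the number of primes `p` in it for which `2 n - p` is a prime different from `p` agrees with
`sing (2 n) (v - u) / (log 2 n)²` up to a relative error of at most `ε`. -/
def Holds (ε : ℝ) (W n : ℕ) : Prop :=
  (∃ p : ℕ, p.Prime ∧ (2 * n - p).Prime ∧ √(2 * (n : ℝ)) < p ∧ p < n ∧
    (p : ℝ) ≤ √(2 * (n : ℝ)) + 2 * (n : ℝ) / Real.log (2 * n) ^ W) ∧
  ∀ u v : ℝ, √(2 * (n : ℝ)) ≤ u → v ≤ n → 2 * (n : ℝ) / Real.log (2 * n) ^ W ≤ v - u →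
    |(count n u v : ℝ) - sing (2 * n) * (v - u) / Real.log (2 * n) ^ 2| ≤
      ε * (sing (2 * n) * (v - u) / Real.log (2 * n) ^ 2)

/-- A positive multiplicative function of at most polynomial growth with `f p = p + c` for all large primes `p`. -/
structure Shifted (f : ℕ → ℕ) (c : ℤ) : Prop where
  mul : ∀ m n : ℕ, Nat.Coprime m n → f (m * n) = f m * f n
  pos : ∀ m : ℕ, 1 ≤ m → 1 ≤ f m
  growth : ∃ C D : ℕ, ∀ m : ℕ, 1 ≤ m → f m ≤ C * m ^ D
  prime : ∃ P : ℕ, ∀ p : ℕ, P ≤ p → p.Prime → (f p : ℤ) = p + c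

open Classical in
/-- The proportion of the positive integers `m ≤ N` without the property `P` tends to `0`. -/
def AlmostAll (P : ℕ → Prop) : Prop :=
  Tendsto (fun N : ℕ => (((Icc 1 N).filter (fun m => ¬ P m)).card : ℝ) / N) atTop (𝓝 0)

theorem holds_of {ε : ℝ} {W n : ℕ}
    (h : Pool.Agent.Results.MP_73b532_nt.AsymptoticEveryModulus.Holds ε W (2 * n)) : Holds ε W n := by
  obtain ⟨h1, p, h2, h3, h4, h5, h6⟩ := h
  have e1 : ((2 * n : ℕ) : ℝ) = 2 * (n : ℝ) := by push_cast; ring
  rw [e1] at h1 h4 h5 h6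
  have e2 : 2 * (n : ℝ) / 2 = n := by ring
  rw [e2] at h1 h5
  exact ⟨⟨p, h2, h3, h4, by exact_mod_cast h5, h6⟩, fun u v hu hv huv => h1 u v hu hv huv⟩

/-- **Goldbach partitions along all orbits of Euler's function.** (1) Let `f` be a positive multiplicative function of
at most polynomial growth with `f p = p + c` for all large primes `p`. There is a function `κ` tending to infinity such
that for almost all `m`, with `j = κ m`, ALL integers `n = α f(φ_k m) + h` with `k ≤ j`, `1 ≤ α ≤ j`, `0 < |h| ≤ j` are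
positive and have the property `Holds (1 / (j + 1)) j n`. (2) The identity, Euler's function and the sum of the divisors
are examples of such functions `f`. -/
theorem result :
    (∀ (f : ℕ → ℕ) (c : ℤ), Shifted f c → ∃ κ : ℕ → ℕ, Tendsto κ atTop atTop ∧
      AlmostAll (fun m => ∀ k α : ℕ, ∀ h : ℤ, k ≤ κ m → 1 ≤ α → α ≤ κ m → |h| ≤ κ m → h ≠ 0 →
        0 < (α : ℤ) * f (Nat.totient^[k] m) + h ∧
          Holds (1 / ((κ m : ℝ) + 1)) (κ m) ((α : ℤ) * f (Nat.totient^[k] m) + h).toNat)) ∧
    (Shifted (fun m => m) 0 ∧ Shifted Nat.totient (-1) ∧ Shifted (fun m => ∑ d ∈ m.divisors, d) 1) := by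
  obtain ⟨H, s0, s1, s2⟩ := Pool.Agent.Results.MP_73b532_nt.IteratedTotients.result
  refine ⟨fun f c hf => ?_, ⟨s0.mul, s0.pos, s0.growth, s0.prime⟩, ⟨s1.mul, s1.pos, s1.growth, s1.prime⟩,
    ⟨s2.mul, s2.pos, s2.growth, s2.prime⟩⟩
  obtain ⟨κ, hκ, hall⟩ := H f c ⟨hf.mul, hf.pos, hf.growth, hf.prime⟩
  refine ⟨fun m => κ m / 2, ?_, ?_⟩
  · rw [tendsto_atTop_atTop] at hκ ⊢
    intro b
    obtain ⟨i, hi⟩ := hκ (2 * b)
    exact ⟨i, fun a ha => by have := hi a ha; omega⟩
  · have hall' : Pool.Agent.Results.MP_73b532_nt.IteratedTotients.AlmostAll (fun m => ∀ k α : ℕ, ∀ h : ℤ,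
        k ≤ κ m / 2 → 1 ≤ α → α ≤ κ m / 2 → |h| ≤ ((κ m / 2 : ℕ) : ℤ) → h ≠ 0 →
        0 < (α : ℤ) * f (Nat.totient^[k] m) + h ∧
          Holds (1 / (((κ m / 2 : ℕ) : ℝ) + 1)) (κ m / 2) ((α : ℤ) * f (Nat.totient^[k] m) + h).toNat) := by
      refine Pool.Agent.Results.MP_73b532_nt.IteratedTotients.almostAll_mono hall
        (fun m hm k α h hk hα1 hα hh hne => ?_)
      have hk2 : κ m / 2 ≤ κ m := Nat.div_le_self _ _
      obtain ⟨h1, h2⟩ := hm k (2 * α) (2 * h) (hk.trans hk2) (by omega) (by omega) (by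
        rw [abs_mul, abs_two]
        have : (2 : ℤ) * ((κ m / 2 : ℕ) : ℤ) ≤ κ m := by omega
        linarith) (by omega)
      have e1 : ((2 * α : ℕ) : ℤ) * f (Nat.totient^[k] m) + 2 * h =
          2 * ((α : ℤ) * f (Nat.totient^[k] m) + h) := by push_cast; ring
      rw [e1] at h1 h2
      have hpos : 0 < (α : ℤ) * f (Nat.totient^[k] m) + h := by omega
      refine ⟨hpos, ?_⟩
      have h3 := h2 ⟨(α : ℤ) * f (Nat.totient^[k] m) + h, by ring⟩
      have e2 : (2 * ((α : ℤ) * f (Nat.totient^[k] m) + h)).toNat =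
          2 * ((α : ℤ) * f (Nat.totient^[k] m) + h).toNat := by omega
      rw [e2] at h3
      have hge : 3 ≤ 2 * ((α : ℤ) * f (Nat.totient^[k] m) + h).toNat := by
        by_contra hcon
        obtain ⟨_, p, hp1, hp2, _, hp4, _⟩ := h3
        have hn1 : ((α : ℤ) * f (Nat.totient^[k] m) + h).toNat = 1 := by omega
        rw [hn1] at hp4
        have := hp1.two_le
        have h7 : (2 : ℝ) ≤ p := by exact_mod_cast this
        norm_num at hp4
        linarith
      refine holds_of (Pool.Agent.Results.MP_73b532_nt.IteratedTotients.holds_mono ?_ hk2 hge h3)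
      apply one_div_le_one_div_of_le (by positivity)
      have : ((κ m / 2 : ℕ) : ℝ) ≤ κ m := by exact_mod_cast hk2
      linarith
    exact hall'

end Pool.Agent.Results.MP_33f996_nt.IteratedTotients
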